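import Pool.Agent.Helper50.HY.Stmts

set_option autoImplicit false

/-! # The trial orbital (dominated convergence to the ground state of hydrogen) -/

namespace Pool.Agent.Helper55.HY

open MeasureTheory Filter Topology Set Pool.Agent.Helper95 Pool.Agent.Helper95.PW
open Pool.Agent.Helper50.HY

theorem nr0 (y : R3) : 0 ≤ nr y := Real.sqrt_nonneg _

theorem nr_sq (y : R3) : nr y ^ 2 = ∑ j, y j ^ 2 := by
  unfold nr
  rw [Real.sq_sqrt (by positivity), Fin.sum_univ_three]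

theorem norm_le_nr (y : R3) : ‖y‖ ≤ nr y := by
  refine (pi_norm_le_iff_of_nonneg (nr0 y)).2 fun i => ?_
  rw [Real.norm_eq_abs]
  unfold nr
  apply Real.abs_le_sqrt
  fin_cases i
  · show y 0 ^ 2 ≤ _
    nlinarith [sq_nonneg (y 1), sq_nonneg (y 2)]
  · show y 1 ^ 2 ≤ _
    nlinarith [sq_nonneg (y 0), sq_nonneg (y 2)]
  · show y 2 ^ 2 ≤ _
    nlinarith [sq_nonneg (y 0), sq_nonneg (y 1)]

theorem nr_toLp (y : R3) : nr y = ‖(WithLp.toLp 2 y : EuclideanSpace ℝ (Fin 3))‖ := by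
  rw [EuclideanSpace.norm_eq, Fin.sum_univ_three]
  simp [nr, Real.norm_eq_abs, sq_abs]

/-- polar coordinates -/
theorem rad : ∃ c : ℝ, 0 < c ∧ ∀ f : ℝ → ℝ,
    (∫ y : R3, f (nr y)) = c * ∫ r in Ioi (0 : ℝ), r ^ 2 * f r ∧
    (IntegrableOn (fun r : ℝ => r ^ 2 * f r) (Ioi 0) → Integrable (fun y : R3 => f (nr y))) := by
  have hb : 0 < (volume : Measure (EuclideanSpace ℝ (Fin 3))).real (Metric.ball 0 1) :=
    ENNReal.toReal_pos (Metric.measure_ball_pos _ _ one_pos).ne' measure_ball_lt_top.ne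
  refine ⟨3 * (volume : Measure (EuclideanSpace ℝ (Fin 3))).real (Metric.ball 0 1),
    by positivity, fun f => ⟨?_, fun hf => ?_⟩⟩
  · have h1 := (PiLp.volume_preserving_toLp (Fin 3)).integral_comp
      (MeasurableEquiv.toLp 2 _).measurableEmbedding
      (fun v : EuclideanSpace ℝ (Fin 3) => f ‖v‖)
    have h2 := integral_fun_norm_addHaar (volume : Measure (EuclideanSpace ℝ (Fin 3))) f
    simp_rw [nr_toLp]
    rw [h1, h2]
    simp [mul_assoc]
  · have h1 := (PiLp.volume_preserving_toLp (Fin 3)).integrable_comp_emb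
      (MeasurableEquiv.toLp 2 _).measurableEmbedding
      (g := fun v : EuclideanSpace ℝ (Fin 3) => f ‖v‖)
    have h2 := integrable_fun_norm_addHaar (volume : Measure (EuclideanSpace ℝ (Fin 3))) (f := f)
    have h3 : Integrable (fun v : EuclideanSpace ℝ (Fin 3) => f ‖v‖) := by
      rw [h2]
      simpa using hf
    have h4 := h1.2 h3
    refine h4.congr (Eventually.of_forall fun y => ?_)
    show f ‖(WithLp.toLp 2 y : EuclideanSpace ℝ (Fin 3))‖ = f (nr y)
    rw [nr_toLp]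

theorem gam3 : IntegrableOn (fun r : ℝ => r ^ 2 * Real.exp (-r)) (Ioi 0) ∧
    ∫ r in Ioi (0 : ℝ), r ^ 2 * Real.exp (-r) = 2 := by
  have e : ∀ r : ℝ, Real.exp (-r) * r ^ ((3 : ℝ) - 1) = r ^ 2 * Real.exp (-r) := by
    intro r
    have : (3 : ℝ) - 1 = (2 : ℕ) := by norm_num
    rw [this, Real.rpow_natCast]
    ring
  have h1 := Real.GammaIntegral_convergent (show (0 : ℝ) < 3 by norm_num)
  have h2 := Real.Gamma_eq_integral (show (0 : ℝ) < 3 by norm_num)
  simp_rw [e] at h1 h2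
  refine ⟨h1, ?_⟩
  rw [← h2]
  have : (3 : ℝ) = (2 : ℕ) + 1 := by norm_num
  rw [this, Real.Gamma_nat_eq_factorial]
  norm_num [Nat.factorial]

theorem gam2 : IntegrableOn (fun r : ℝ => r ^ 2 * (Real.exp (-r) / r)) (Ioi 0) ∧
    ∫ r in Ioi (0 : ℝ), r ^ 2 * (Real.exp (-r) / r) = 1 := by
  have e : ∀ r ∈ Ioi (0 : ℝ), Real.exp (-r) * r ^ ((2 : ℝ) - 1) = r ^ 2 * (Real.exp (-r) / r) := by
    intro r hr
    have h0 : r ≠ 0 := (mem_Ioi.1 hr).ne'
    have : (2 : ℝ) - 1 = 1 := by norm_num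
    rw [this, Real.rpow_one]
    field_simp
  have h1 := Real.GammaIntegral_convergent (show (0 : ℝ) < 2 by norm_num)
  have h2 := Real.Gamma_eq_integral (show (0 : ℝ) < 2 by norm_num)
  refine ⟨h1.congr_fun e measurableSet_Ioi, ?_⟩
  rw [← setIntegral_congr_fun measurableSet_Ioi e, ← h2]
  have : (2 : ℝ) = (1 : ℕ) + 1 := by norm_num
  rw [this, Real.Gamma_nat_eq_factorial]
  norm_num [Nat.factorial]

/-- the regularized length as a function of the square of the length -/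
noncomputable def th (s t : ℝ) : ℝ := Real.sqrt (Real.sqrt (t ^ 2 + s ^ 2))

/-- the cut-off -/
noncomputable def bp : ContDiffBump (0 : ℝ) := ⟨1, 2, zero_lt_one, one_lt_two⟩

/-- the trial function -/
noncomputable def qq (s t : ℝ) : ℝ := Real.exp (-(th s t) / 2) * bp (s ^ 2 * t)

/-- the derivative of `th` -/
noncomputable def th' (s t : ℝ) : ℝ := (2 * t / (2 * Real.sqrt (t ^ 2 + s ^ 2))) / (2 * th s t)

/-- the derivative of `qq` -/
noncomputable def gg (s t : ℝ) : ℝ :=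
  Real.exp (-(th s t) / 2) * (-(th' s t) / 2) * bp (s ^ 2 * t) +
    Real.exp (-(th s t) / 2) * (deriv bp (s ^ 2 * t) * s ^ 2)

theorem th_smooth {s : ℝ} (hs : 0 < s) : ContDiff ℝ (⊤ : ℕ∞) (th s) := by
  have h : ∀ t : ℝ, 0 < t ^ 2 + s ^ 2 := fun t => by positivity
  exact (((contDiff_id.pow 2).add contDiff_const).sqrt (fun t => (h t).ne')).sqrt
    (fun t => (Real.sqrt_pos.2 (h t)).ne')

theorem th_deriv {s : ℝ} (hs : 0 < s) (t : ℝ) : HasDerivAt (th s) (th' s t) t := by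
  have h : 0 < t ^ 2 + s ^ 2 := by positivity
  have h1 : HasDerivAt (fun t : ℝ => t ^ 2 + s ^ 2) (2 * t) t := by
    simpa using ((hasDerivAt_id t).pow 2).add_const (s ^ 2)
  exact (h1.sqrt h.ne').sqrt (Real.sqrt_pos.2 h).ne'

theorem qq_deriv {s : ℝ} (hs : 0 < s) (t : ℝ) : HasDerivAt (qq s) (gg s t) t := by
  have h1 : HasDerivAt (fun t => Real.exp (-(th s t) / 2))
      (Real.exp (-(th s t) / 2) * (-(th' s t) / 2)) t := ((th_deriv hs t).neg.div_const 2).exp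
  have h2 : HasDerivAt (fun t : ℝ => s ^ 2 * t) (s ^ 2) t := by
    simpa using (hasDerivAt_id t).const_mul (s ^ 2)
  have h3 : HasDerivAt bp (deriv bp (s ^ 2 * t)) (s ^ 2 * t) :=
    ((bp.contDiff (n := 1)).differentiable (by simp) _).hasDerivAt
  exact h1.mul (h3.comp t h2)

theorem qq_smooth {s : ℝ} (hs : 0 < s) : ContDiff ℝ (⊤ : ℕ∞) (qq s) := by
  have h1 : ContDiff ℝ (⊤ : ℕ∞) (fun t => Real.exp (-(th s t) / 2)) :=
    (((th_smooth hs).neg).div_const 2).exp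
  exact h1.mul (bp.contDiff.comp (contDiff_const.mul contDiff_id))

theorem qq_zero {s t : ℝ} (hs : 0 < s) (h : (2 / s) ^ 2 ≤ t) : qq s t = 0 := by
  unfold qq
  rw [bp.zero_of_le_dist, mul_zero]
  show (2 : ℝ) ≤ _
  rw [Real.dist_eq, sub_zero]
  refine le_trans ?_ (le_abs_self _)
  rw [div_pow, div_le_iff₀ (by positivity)] at h
  linarith

theorem pd_rad {q : ℝ → ℝ} {g : ℝ} (y : R3) (h : HasDerivAt q g (nr y ^ 2)) (i : Fin 3) :
    pd i (fun y => q (nr y ^ 2)) y = g * (2 * y i) := by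
  have e : (fun y : R3 => q (nr y ^ 2)) = fun y => q (∑ j, y j ^ 2) := by
    funext y
    rw [nr_sq]
  have h1 := HasFDerivAt.fun_sum (u := Finset.univ) fun (j : Fin 3) _ =>
    (hasFDerivAt_apply (𝕜 := ℝ) j y).pow 2
  rw [nr_sq] at h
  have h2 : HasFDerivAt (fun y : R3 => q (∑ j, y j ^ 2)) _ y := h.comp_hasFDerivAt y h1
  unfold pd
  rw [e, h2.fderiv]
  simp [Pi.single_apply]

theorem f_smooth {q : ℝ → ℝ} (h : ContDiff ℝ (⊤ : ℕ∞) q) :
    ContDiff ℝ (⊤ : ℕ∞) (fun y : R3 => q (nr y ^ 2)) := by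
  have e : (fun y : R3 => q (nr y ^ 2)) = fun y => q (∑ j, y j ^ 2) := by
    funext y
    rw [nr_sq]
  rw [e]
  exact h.comp (ContDiff.sum fun j _ => (contDiff_apply ℝ ℝ j).pow 2)

theorem f_cs {s : ℝ} (hs : 0 < s) : HasCompactSupport (fun y : R3 => qq s (nr y ^ 2)) := by
  apply HasCompactSupport.intro (isCompact_closedBall (0 : R3) (2 / s))
  intro y hy
  rw [Metric.mem_closedBall, dist_zero_right, not_le] at hy
  apply qq_zero hs
  exact pow_le_pow_left₀ (by positivity) (hy.le.trans (norm_le_nr y)) 2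

theorem th_ge (s : ℝ) {r : ℝ} (_hr : 0 ≤ r) : r ≤ th s (r ^ 2) := by
  unfold th
  apply Real.le_sqrt_of_sq_le
  apply Real.le_sqrt_of_sq_le
  nlinarith [sq_nonneg s]

theorem exp_th (s : ℝ) {r : ℝ} (hr : 0 ≤ r) :
    Real.exp (-(th s (r ^ 2)) / 2) ≤ Real.exp (-r / 2) := by
  apply Real.exp_le_exp.2
  have := th_ge s hr
  linarith

theorem sq_exp (r : ℝ) : Real.exp (-r / 2) ^ 2 = Real.exp (-r) := by
  rw [← Real.exp_nat_mul]
  congr 1
  push_cast
  ring

/-- the bound for the gradient -/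
theorem gg_bound : ∃ D : ℝ, 0 ≤ D ∧ ∀ s r : ℝ, 0 < s → s ≤ 1 → 0 ≤ r →
    (2 * r * gg s (r ^ 2)) ^ 2 ≤ (1 / 2 + 2 * D) ^ 2 * Real.exp (-r) := by
  have h1 : Continuous (fun x : ℝ => (1 + x) * deriv bp x) :=
    (continuous_const.add continuous_id).mul ((bp.contDiff (n := 1)).continuous_deriv le_rfl)
  have h2 : HasCompactSupport (fun x : ℝ => (1 + x) * deriv bp x) :=
    (bp.hasCompactSupport.deriv).mul_left
  obtain ⟨D, hD⟩ := h2.exists_bound_of_continuous h1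
  have hD0 : 0 ≤ D := (norm_nonneg _).trans (hD 0)
  refine ⟨D, hD0, fun s r hs hs1 hr => ?_⟩
  obtain ⟨a, ha⟩ : ∃ a : ℝ, a = Real.exp (-(th s (r ^ 2)) / 2) := ⟨_, rfl⟩
  have ha0 : 0 < a := by rw [ha]; exact Real.exp_pos _
  have ha1 : a ≤ Real.exp (-r / 2) := by rw [ha]; exact exp_th s hr
  obtain ⟨b, hb⟩ : ∃ b : ℝ, b = bp (s ^ 2 * r ^ 2) := ⟨_, rfl⟩
  have hb0 : 0 ≤ b := by rw [hb]; exact bp.nonneg
  have hb1 : b ≤ 1 := by rw [hb]; exact bp.le_one
  have h3 : |r * th' s (r ^ 2)| ≤ 1 / 2 := by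
    have ht := th_ge s hr
    have h5 : 0 < (r ^ 2) ^ 2 + s ^ 2 := by positivity
    have h6 : 0 < Real.sqrt ((r ^ 2) ^ 2 + s ^ 2) := Real.sqrt_pos.2 h5
    have h7 : 0 < th s (r ^ 2) := Real.sqrt_pos.2 h6
    have h8 : r ^ 2 ≤ Real.sqrt ((r ^ 2) ^ 2 + s ^ 2) := by
      apply Real.le_sqrt_of_sq_le
      nlinarith [sq_nonneg s]
    have h9 : 0 ≤ th' s (r ^ 2) := by
      unfold th'
      positivity
    rw [abs_of_nonneg (mul_nonneg hr h9)]
    have h10 : th' s (r ^ 2) ≤ 1 / (2 * th s (r ^ 2)) := by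
      unfold th'
      refine div_le_div_of_nonneg_right ?_ (by positivity)
      rw [div_le_one (by positivity)]
      linarith
    calc r * th' s (r ^ 2) ≤ th s (r ^ 2) * (1 / (2 * th s (r ^ 2))) :=
          mul_le_mul ht h10 h9 h7.le
      _ = 1 / 2 := by field_simp
  have h4 : |r * s ^ 2 * deriv bp (s ^ 2 * r ^ 2)| ≤ D := by
    have h5 := hD (s ^ 2 * r ^ 2)
    rw [Real.norm_eq_abs, abs_mul, abs_of_nonneg (by positivity : 0 ≤ 1 + s ^ 2 * r ^ 2)] at h5
    rw [abs_mul, abs_of_nonneg (by positivity : 0 ≤ r * s ^ 2)]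
    refine le_trans (mul_le_mul_of_nonneg_right ?_ (abs_nonneg _)) h5
    have h6 : r * s ≤ 1 + s ^ 2 * r ^ 2 := by nlinarith [sq_nonneg (r * s - 1)]
    have h7 : r * s ^ 2 ≤ r * s := by
      have : s ^ 2 ≤ s := by nlinarith
      exact mul_le_mul_of_nonneg_left this hr
    linarith
  have h5 : |2 * r * gg s (r ^ 2)| ≤ (1 / 2 + 2 * D) * Real.exp (-r / 2) := by
    have e : 2 * r * gg s (r ^ 2) = a * (-(r * th' s (r ^ 2)) * b +
        2 * (r * s ^ 2 * deriv bp (s ^ 2 * r ^ 2))) := by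
      unfold gg
      rw [← ha, ← hb]
      ring
    rw [e, abs_mul, abs_of_pos ha0, mul_comm]
    refine mul_le_mul ?_ ha1 ha0.le (by positivity)
    refine (abs_add_le _ _).trans ?_
    rw [abs_mul, abs_neg, abs_mul 2, abs_of_nonneg hb0, abs_of_pos (by norm_num : (0 : ℝ) < 2)]
    have h6 : |r * th' s (r ^ 2)| * b ≤ 1 / 2 * 1 := mul_le_mul h3 hb1 hb0 (by norm_num)
    linarith
  rw [← sq_exp, ← mul_pow, ← sq_abs]
  exact pow_le_pow_left₀ (abs_nonneg _) h5 2

theorem lim_th (r : ℝ) (hr : 0 ≤ r) :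
    Tendsto (fun s : ℝ => Real.exp (-(th s (r ^ 2)) / 2)) (𝓝[>] 0) (𝓝 (Real.exp (-r / 2))) := by
  have h1 : Continuous (fun s : ℝ => Real.exp (-(th s (r ^ 2)) / 2)) := by
    unfold th
    fun_prop
  have h2 := (h1.tendsto 0).mono_left (nhdsWithin_le_nhds (s := Ioi (0 : ℝ)))
  have h3 : th 0 (r ^ 2) = r := by
    unfold th
    rw [zero_pow two_ne_zero, add_zero, Real.sqrt_sq (by positivity), Real.sqrt_sq hr]
  rwa [h3] at h2

theorem bp0 : bp 0 = 1 := bp.one_of_mem_closedBall (by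
  show (0 : ℝ) ∈ Metric.closedBall 0 1
  simp)

theorem lim_bp (t : ℝ) : Tendsto (fun s : ℝ => bp (s ^ 2 * t)) (𝓝[>] 0) (𝓝 1) := by
  have h1 : Continuous (fun s : ℝ => bp (s ^ 2 * t)) :=
    bp.continuous.comp ((continuous_id.pow 2).mul continuous_const)
  have h2 := (h1.tendsto 0).mono_left (nhdsWithin_le_nhds (s := Ioi (0 : ℝ)))
  simpa [bp0] using h2

theorem lim_qq (r : ℝ) (hr : 0 ≤ r) :
    Tendsto (fun s : ℝ => qq s (r ^ 2) ^ 2) (𝓝[>] 0) (𝓝 (Real.exp (-r))) := by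
  have := ((lim_th r hr).mul (lim_bp (r ^ 2))).pow 2
  rwa [mul_one, sq_exp] at this

theorem lim_gg (r : ℝ) (hr : 0 < r) :
    Tendsto (fun s : ℝ => (2 * r * gg s (r ^ 2)) ^ 2) (𝓝[>] 0) (𝓝 (1 / 4 * Real.exp (-r))) := by
  have h1 : Tendsto (fun s : ℝ => th' s (r ^ 2)) (𝓝[>] 0) (𝓝 (1 / (2 * r))) := by
    have h2 : ContinuousAt (fun s : ℝ => th' s (r ^ 2)) 0 := by
      unfold th' th
      have h3 : (r ^ 2) ^ 2 + (0 : ℝ) ^ 2 ≠ 0 := by positivity
      have h4 : Real.sqrt ((r ^ 2) ^ 2 + (0 : ℝ) ^ 2) ≠ 0 := by positivity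
      have h5 : 2 * Real.sqrt (Real.sqrt ((r ^ 2) ^ 2 + (0 : ℝ) ^ 2)) ≠ 0 := by positivity
      have h6 : 2 * Real.sqrt ((r ^ 2) ^ 2 + (0 : ℝ) ^ 2) ≠ 0 := by positivity
      refine ContinuousAt.div (ContinuousAt.div continuousAt_const ?_ h6) ?_ h5
      · exact Continuous.continuousAt (by fun_prop)
      · exact Continuous.continuousAt (by fun_prop)
    have h3 := h2.tendsto.mono_left (nhdsWithin_le_nhds (s := Ioi (0 : ℝ)))
    have h4 : th' 0 (r ^ 2) = 1 / (2 * r) := by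
      unfold th' th
      rw [zero_pow two_ne_zero, add_zero, Real.sqrt_sq (by positivity), Real.sqrt_sq hr.le]
      field_simp
    rwa [h4] at h3
  have h2 : Tendsto (fun s : ℝ => deriv bp (s ^ 2 * r ^ 2) * s ^ 2) (𝓝[>] 0) (𝓝 0) := by
    have h3 : Continuous (fun s : ℝ => deriv bp (s ^ 2 * r ^ 2) * s ^ 2) :=
      (((bp.contDiff (n := 1)).continuous_deriv le_rfl).comp
        ((continuous_id.pow 2).mul continuous_const)).mul (continuous_id.pow 2)
    have h4 := (h3.tendsto 0).mono_left (nhdsWithin_le_nhds (s := Ioi (0 : ℝ)))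
    simpa using h4
  have h3 : Tendsto (fun s : ℝ => gg s (r ^ 2)) (𝓝[>] 0)
      (𝓝 (Real.exp (-r / 2) * (-(1 / (2 * r)) / 2) * 1 + Real.exp (-r / 2) * 0)) :=
    (((lim_th r hr.le).mul (h1.neg.div_const 2)).mul (lim_bp (r ^ 2))).add
      ((lim_th r hr.le).mul h2)
  have h4 := (h3.const_mul (2 * r)).pow 2
  have h5 : (2 * r * (Real.exp (-r / 2) * (-(1 / (2 * r)) / 2) * 1 + Real.exp (-r / 2) * 0)) ^ 2 =
      1 / 4 * Real.exp (-r) := by
    rw [← sq_exp]
    field_simp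
    ring
  rwa [h5] at h4

theorem TRO (_h : PW.ST_HA3) : ST_TRO := by
  intro δ hδ
  obtain ⟨c, hc, hrad⟩ := rad
  obtain ⟨D, hD, hgb⟩ := gg_bound
  have iN : Integrable (fun y : R3 => Real.exp (-(nr y))) :=
    (hrad (fun r => Real.exp (-r))).2 gam3.1
  have iV : Integrable (fun y : R3 => Real.exp (-(nr y)) / nr y) :=
    (hrad (fun r => Real.exp (-r) / r)).2 gam2.1
  have vN : ∫ y : R3, Real.exp (-(nr y)) = 2 * c := by
    rw [(hrad (fun r => Real.exp (-r))).1, gam3.2]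
    ring
  have vV : ∫ y : R3, Real.exp (-(nr y)) / nr y = c := by
    rw [(hrad (fun r => Real.exp (-r) / r)).1, gam2.2]
    ring
  have hs01 : ∀ᶠ s : ℝ in 𝓝[>] 0, 0 < s ∧ s ≤ 1 := by
    have h1 : Ioc (0 : ℝ) 1 ∈ 𝓝[>] (0 : ℝ) := Ioc_mem_nhdsGT zero_lt_one
    exact h1
  have hnrc : Continuous (nr : R3 → ℝ) := by
    unfold nr
    fun_prop
  have hb : ∀ s r : ℝ, 0 ≤ r → qq s (r ^ 2) ^ 2 ≤ Real.exp (-r) := by
    intro s r hr
    rw [← sq_exp]
    have h1 : 0 ≤ qq s (r ^ 2) := mul_nonneg (Real.exp_pos _).le bp.nonneg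
    refine pow_le_pow_left₀ h1 ?_ 2
    calc qq s (r ^ 2) ≤ Real.exp (-(th s (r ^ 2)) / 2) * 1 :=
          mul_le_mul_of_nonneg_left bp.le_one (Real.exp_pos _).le
      _ ≤ _ := by rw [mul_one]; exact exp_th s hr
  have hN : Tendsto (fun s => ∫ y : R3, qq s (nr y ^ 2) ^ 2) (𝓝[>] 0) (𝓝 (2 * c)) := by
    rw [← vN]
    refine tendsto_integral_filter_of_dominated_convergence (fun y => Real.exp (-(nr y)))
      ?_ ?_ iN ?_
    · filter_upwards [hs01] with s hs
      exact ((f_smooth (qq_smooth hs.1)).continuous.pow 2).aestronglyMeasurable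
    · filter_upwards with s
      filter_upwards with y
      rw [Real.norm_eq_abs, abs_of_nonneg (sq_nonneg _)]
      exact hb s _ (nr0 y)
    · filter_upwards with y
      exact lim_qq _ (nr0 y)
  have hV : Tendsto (fun s => ∫ y : R3, qq s (nr y ^ 2) ^ 2 / nr y) (𝓝[>] 0) (𝓝 c) := by
    rw [← vV]
    refine tendsto_integral_filter_of_dominated_convergence (fun y => Real.exp (-(nr y)) / nr y)
      ?_ ?_ iV ?_
    · filter_upwards [hs01] with s hs
      exact (((f_smooth (qq_smooth hs.1)).continuous.pow 2).measurable.div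
        hnrc.measurable).aestronglyMeasurable
    · filter_upwards with s
      filter_upwards with y
      rw [Real.norm_eq_abs, abs_of_nonneg (div_nonneg (sq_nonneg _) (nr0 y))]
      exact div_le_div_of_nonneg_right (hb s _ (nr0 y)) (nr0 y)
    · filter_upwards with y
      exact (lim_qq _ (nr0 y)).div_const _
  have hne : ∀ᵐ y : R3, 0 < nr y := by
    have h1 : ∀ᵐ y : R3, y ≠ 0 := by
      rw [ae_iff]
      simp
    filter_upwards [h1] with y hy
    have : 0 < ‖y‖ := norm_pos_iff.2 hy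
    exact this.trans_le (norm_le_nr y)
  have hK : Tendsto (fun s => ∫ y : R3, (2 * nr y * gg s (nr y ^ 2)) ^ 2) (𝓝[>] 0)
      (𝓝 (1 / 4 * (2 * c))) := by
    rw [← vN, ← integral_const_mul]
    refine tendsto_integral_filter_of_dominated_convergence
      (fun y => (1 / 2 + 2 * D) ^ 2 * Real.exp (-(nr y))) ?_ ?_ (iN.const_mul _) ?_
    · filter_upwards [hs01] with s hs
      have h1 : gg s = deriv (qq s) := funext fun t => ((qq_deriv hs.1 t).deriv).symm
      have h2 : Continuous (gg s) := by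
        rw [h1]
        exact (qq_smooth hs.1).continuous_deriv (by simp)
      exact (((continuous_const.mul hnrc).mul
        (h2.comp (hnrc.pow 2))).pow 2).aestronglyMeasurable
    · filter_upwards [hs01] with s hs
      filter_upwards with y
      rw [Real.norm_eq_abs, abs_of_nonneg (sq_nonneg _)]
      exact hgb s _ hs.1 hs.2 (nr0 y)
    · filter_upwards [hne] with y hy
      exact lim_gg _ hy
  have hKs : ∀ s : ℝ, 0 < s → ∑ i, ∫ y, pd i (fun y => qq s (nr y ^ 2)) y ^ 2 =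
      ∫ y : R3, (2 * nr y * gg s (nr y ^ 2)) ^ 2 := by
    intro s hs
    rw [← integral_finsetSum]
    · congr 1
      funext y
      have h1 : ∀ i, pd i (fun y => qq s (nr y ^ 2)) y = gg s (nr y ^ 2) * (2 * y i) :=
        fun i => pd_rad y (qq_deriv hs _) i
      calc ∑ i, pd i (fun y => qq s (nr y ^ 2)) y ^ 2
          = ∑ i, 4 * gg s (nr y ^ 2) ^ 2 * y i ^ 2 :=
            Finset.sum_congr rfl fun i _ => by rw [h1 i]; ring
        _ = 4 * gg s (nr y ^ 2) ^ 2 * nr y ^ 2 := by rw [← Finset.mul_sum, nr_sq]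
        _ = _ := by ring
    · intro i _
      have h1 : Continuous (pd i (fun y => qq s (nr y ^ 2))) :=
        ((f_smooth (qq_smooth hs)).continuous_fderiv (by simp)).clm_apply continuous_const
      have h2 : HasCompactSupport (pd i (fun y => qq s (nr y ^ 2))) :=
        ((f_cs hs).fderiv (𝕜 := ℝ)).comp_left (g := fun L : R3 →L[ℝ] ℝ => L (Pi.single i 1)) rfl
      have h3 : (fun y => pd i (fun y => qq s (nr y ^ 2)) y ^ 2) = fun y =>
          pd i (fun y => qq s (nr y ^ 2)) y * pd i (fun y => qq s (nr y ^ 2)) y := by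
        funext y
        ring
      rw [h3]
      exact (h1.mul h1).integrable_of_hasCompactSupport h2.mul_left
  have hNpos : ∀ᶠ s in 𝓝[>] (0 : ℝ), c < ∫ y : R3, qq s (nr y ^ 2) ^ 2 :=
    hN.eventually (lt_mem_nhds (by linarith))
  have hT := (hK.sub hV).div hN (by positivity)
  have hlt : (1 / 4 * (2 * c) - c) / (2 * c) < -(1 / 4) + δ := by
    have h1 : (1 / 4 * (2 * c) - c) / (2 * c) = -(1 / 4) := by
      field_simp
      ring
    linarith
  obtain ⟨s, ⟨hs0, _⟩, hNs, hTs⟩ :=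
    (hs01.and (hNpos.and (hT.eventually (gt_mem_nhds hlt)))).exists
  obtain ⟨N, hNd⟩ : ∃ N : ℝ, N = ∫ y : R3, qq s (nr y ^ 2) ^ 2 := ⟨_, rfl⟩
  rw [← hNd] at hNs
  have hN0 : 0 < N := by linarith
  obtain ⟨k, hk⟩ : ∃ k : ℝ, k ^ 2 = 1 / N := ⟨Real.sqrt (1 / N), Real.sq_sqrt (by positivity)⟩
  refine ⟨fun t => k * qq s t, 2 / s, by positivity, contDiff_const.mul (qq_smooth hs0), ?_, ?_, ?_⟩
  · intro t ht
    show k * qq s t = 0
    rw [qq_zero hs0 ht, mul_zero]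
  · show ∫ y : R3, (k * qq s (nr y ^ 2)) ^ 2 = 1
    simp_rw [mul_pow]
    rw [integral_const_mul, ← hNd, hk]
    field_simp
  · have h1 : ∀ (i : Fin 3) (y : R3), pd i (fun y => k * qq s (nr y ^ 2)) y =
        k * pd i (fun y => qq s (nr y ^ 2)) y := by
      intro i y
      rw [pd_rad (q := fun t => k * qq s t) y ((qq_deriv hs0 _).const_mul k) i,
        pd_rad y (qq_deriv hs0 _) i]
      ring
    show (∑ i, ∫ y, pd i (fun y => k * qq s (nr y ^ 2)) y ^ 2) -
      (∫ y, (k * qq s (nr y ^ 2)) ^ 2 / nr y) ≤ -(1 / 4) + δ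
    simp_rw [h1, mul_pow, mul_div_assoc, integral_const_mul]
    rw [← Finset.mul_sum, hKs s hs0, ← mul_sub, hk, one_div, ← div_eq_inv_mul, hNd]
    exact hTs.le

end Pool.Agent.Helper55.HY
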